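import Mathlib

set_option autoImplicit false

/-!
# The type B Eulerian transformation preserves log-convexity

A signed permutation of `n` letters is coded by a permutation `σ` of `Fin n` and signs
`ε : Fin n → Bool`; its window is `w(i + 1) = ± (σ i + 1)`, with sign `-` if `ε i = true`, and
`w(0) = 0`. The proof inserts the letters `± (n + 1)` and uses the Cauchy-Schwarz inequality.
-/

namespace Pool.Agent.Results.MP_209e83_co.TypeB

/-- Signed permutations of `n` letters: a permutation and a sign for each position. -/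
abbrev SignedPerm (n : ℕ) : Type := Equiv.Perm (Fin n) × (Fin n → Bool)

/-- The values of a signed permutation: `w(0) = 0`, and for `1 ≤ i ≤ n` the value `w(i)` is
`σ (i - 1) + 1` or `- (σ (i - 1) + 1)` according to the sign at position `i`
(and, as a convention which is never used, `w(i) = 0` for `i > n`). -/
def val {n : ℕ} (w : SignedPerm n) : ℕ → ℤ
  | 0 => 0
  | i + 1 => if h : i < n then
      (if w.2 ⟨i, h⟩ = true then -(((w.1 ⟨i, h⟩ : Fin n) : ℕ) + 1 : ℤ)
        else (((w.1 ⟨i, h⟩ : Fin n) : ℕ) + 1 : ℤ))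
    else 0

/-- The number of type B descents: indices `i ∈ {0, ..., n - 1}` with `w(i) > w(i + 1)`. -/
def desB {n : ℕ} (w : SignedPerm n) : ℕ :=
  ((Finset.range n).filter (fun i => val w (i + 1) < val w i)).card

/-- The type B Eulerian number: the number of signed permutations of `n` letters with exactly `k`
type B descents. -/
def B (n k : ℕ) : ℕ :=
  ((Finset.univ : Finset (SignedPerm n)).filter (fun w => desB w = k)).card

/-- number of descents of a function on `0, ..., n` -/
def dn (f : ℕ → ℤ) (n : ℕ) : ℕ := ∑ i ∈ Finset.range n, if f (i + 1) < f i then 1 else 0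

/-- insertion of the value `M` at the place `p` -/
def ins (f : ℕ → ℤ) (p : ℕ) (M : ℤ) (i : ℕ) : ℤ :=
  if i < p then f i else if i = p then M else f (i - 1)

theorem dn_succ (f : ℕ → ℤ) (n : ℕ) :
    dn f (n + 1) = dn f n + if f (n + 1) < f n then 1 else 0 := Finset.sum_range_succ _ _

theorem ins_lt (f : ℕ → ℤ) (p : ℕ) (M : ℤ) (i : ℕ) (h : i < p) : ins f p M i = f i := if_pos h

theorem ins_eq (f : ℕ → ℤ) (p : ℕ) (M : ℤ) : ins f p M p = M := by simp [ins]

theorem ins_gt (f : ℕ → ℤ) (p : ℕ) (M : ℤ) (i : ℕ) (h : p ≤ i) : ins f p M (i + 1) = f i := by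
  unfold ins
  rw [if_neg (by omega), if_neg (by omega)]
  simp

theorem ins_last (f : ℕ → ℤ) (M : ℤ) (n : ℕ) :
    dn (ins f (n + 1) M) (n + 1) = dn f n + if M < f n then 1 else 0 := by
  rw [dn_succ, ins_eq, ins_lt _ _ _ _ (Nat.lt_succ_self n)]
  congr 1
  unfold dn
  apply Finset.sum_congr rfl
  intro i hi
  rw [Finset.mem_range] at hi
  rw [ins_lt _ _ _ _ (by omega), ins_lt _ _ _ _ (by omega)]

theorem ins_mid (f : ℕ → ℤ) (M : ℤ) (p n : ℕ) (hp : p + 1 ≤ n)
    (hM : (∀ i ≤ n, f i < M) ∨ (∀ i ≤ n, M < f i)) :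
    dn (ins f (p + 1) M) (n + 1) + (if f (p + 1) < f p then 1 else 0) = dn f n + 1 := by
  induction n, hp using Nat.le_induction with
  | base =>
    rw [dn_succ, ins_last, dn_succ f p, ins_eq, ins_gt _ _ _ _ le_rfl]
    rcases hM with hM | hM
    · have h1 := hM p (by omega)
      have h2 := hM (p + 1) le_rfl
      rw [if_neg (by omega), if_pos h2]
      omega
    · have h1 := hM p (by omega)
      have h2 := hM (p + 1) le_rfl
      rw [if_pos h1, if_neg (by omega)]
      omega
  | succ n hn ih =>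
    have h2 := ih (hM.imp (fun h i hi => h i (by omega)) (fun h i hi => h i (by omega)))
    rw [dn_succ, ins_gt _ _ _ (n + 1) (by omega), ins_gt _ _ _ n hn, dn_succ f n]
    omega

theorem desB_dn {n : ℕ} (w : SignedPerm n) : desB w = dn (val w) n := by
  unfold desB dn
  rw [Finset.card_filter]

theorem val_succ {n : ℕ} (w : SignedPerm n) (i : Fin n) :
    val w (i.val + 1) = if w.2 i = true then -(((w.1 i : Fin n) : ℕ) + 1 : ℤ)
      else (((w.1 i : Fin n) : ℕ) + 1 : ℤ) := by
  show (if h : i.val < n then _ else _) = _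
  rw [dif_pos i.2]

theorem val_abs {n : ℕ} (w : SignedPerm n) (i : ℕ) (hi : i ≤ n) :
    val w i < (n : ℤ) + 1 ∧ -((n : ℤ) + 1) < val w i := by
  cases i with
  | zero => 
    show (0 : ℤ) < (n : ℤ) + 1 ∧ -((n : ℤ) + 1) < 0
    omega
  | succ i =>
    have h := val_succ w ⟨i, by omega⟩
    simp only at h
    rw [h]
    have h2 := (w.1 ⟨i, by omega⟩).2
    split_ifs <;> omega

/-- insertion of the letter `± (n + 1)` at the place `p` -/
def Ph {n : ℕ} (x : (Fin (n + 1) × Bool) × SignedPerm n) : SignedPerm (n + 1) :=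
  ((finSuccEquiv' x.1.1).trans ((Equiv.optionCongr x.2.1).trans (finSuccEquiv' (Fin.last n)).symm),
    x.1.1.insertNth (α := fun _ => Bool) x.1.2 x.2.2)

theorem Ph_self {n : ℕ} (p : Fin (n + 1)) (s : Bool) (w : SignedPerm n) :
    (Ph ((p, s), w)).1 p = Fin.last n := by
  simp [Ph]

theorem Ph_succAbove {n : ℕ} (p : Fin (n + 1)) (s : Bool) (w : SignedPerm n) (i : Fin n) :
    (Ph ((p, s), w)).1 (p.succAbove i) = (w.1 i).castSucc := by
  simp [Ph]

theorem Ph_self2 {n : ℕ} (p : Fin (n + 1)) (s : Bool) (w : SignedPerm n) :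
    (Ph ((p, s), w)).2 p = s := by
  simp [Ph]

theorem Ph_succAbove2 {n : ℕ} (p : Fin (n + 1)) (s : Bool) (w : SignedPerm n) (i : Fin n) :
    (Ph ((p, s), w)).2 (p.succAbove i) = w.2 i := by
  simp [Ph]

theorem Ph_bij {n : ℕ} : Function.Bijective (Ph (n := n)) := by
  rw [Fintype.bijective_iff_injective_and_card]
  constructor
  · rintro ⟨⟨p, s⟩, w⟩ ⟨⟨p', s'⟩, w'⟩ h
    have h1 : p = p' := by
      apply (Ph ((p, s), w)).1.injective
      rw [Ph_self, h, Ph_self]
    subst h1
    have h2 : s = s' := by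
      rw [← Ph_self2 p s w, h, Ph_self2]
    subst h2
    congr 1
    apply Prod.ext
    · ext i
      have h2 := congrArg (fun e : SignedPerm (n + 1) => (e.1 (p.succAbove i)).val) h
      simp only [Ph_succAbove, Fin.val_castSucc] at h2
      exact h2
    · ext i
      have h2 := congrArg (fun e : SignedPerm (n + 1) => e.2 (p.succAbove i)) h
      simp only [Ph_succAbove2] at h2
      rw [h2]
  · simp only [Fintype.card_prod, Fintype.card_perm, Fintype.card_fin, Fintype.card_pi,
      Fintype.card_bool, Finset.prod_const, Finset.card_univ, Nat.factorial_succ]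
    ring

/-- the inserted letter -/
def letter (n : ℕ) (s : Bool) : ℤ := if s = true then -((n : ℤ) + 1) else (n : ℤ) + 1

theorem val_Ph {n : ℕ} (p : Fin (n + 1)) (s : Bool) (w : SignedPerm n) (i : ℕ) (hi : i ≤ n + 1) :
    val (Ph ((p, s), w)) i = ins (val w) (p.val + 1) (letter n s) i := by
  cases i with
  | zero => rw [ins_lt _ _ _ _ (by omega)]; rfl
  | succ i =>
    have e1 := val_succ (Ph ((p, s), w)) ⟨i, by omega⟩
    simp only at e1
    rw [e1]
    rcases lt_trichotomy i p.val with h | h | h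
    · rw [ins_lt _ _ _ _ (by omega)]
      have hi' : i < n := by have := p.2; omega
      have h1 : p.succAbove ⟨i, hi'⟩ = ⟨i, by omega⟩ := by
        rw [Fin.succAbove_of_castSucc_lt]
        · rfl
        · exact h
      rw [← h1, Ph_succAbove, Ph_succAbove2, Fin.val_castSucc]
      exact (val_succ w ⟨i, hi'⟩).symm
    · have h1 : (⟨i, by omega⟩ : Fin (n + 1)) = p := Fin.ext h
      rw [h1, Ph_self, Ph_self2, h, ins_eq]
      rfl
    · obtain ⟨j, rfl⟩ : ∃ j, i = j + 1 := ⟨i - 1, by omega⟩
      rw [ins_gt _ _ _ _ (by omega)]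
      have hi' : j < n := by omega
      have h1 : p.succAbove ⟨j, hi'⟩ = ⟨j + 1, by omega⟩ := by
        rw [Fin.succAbove_of_le_castSucc]
        · rfl
        · rw [Fin.le_def]
          simp only [Fin.val_castSucc]
          omega
      rw [← h1, Ph_succAbove, Ph_succAbove2, Fin.val_castSucc]
      exact (val_succ w ⟨j, hi'⟩).symm

theorem desB_Ph {n : ℕ} (p : Fin (n + 1)) (s : Bool) (w : SignedPerm n) :
    desB (Ph ((p, s), w)) = dn (ins (val w) (p.val + 1) (letter n s)) (n + 1) := by
  rw [desB_dn]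
  unfold dn
  apply Finset.sum_congr rfl
  intro i hi
  rw [Finset.mem_range] at hi
  rw [val_Ph p s w i (by omega), val_Ph p s w (i + 1) (by omega)]

/-- sum over all insertions with a fixed sign -/
theorem sum_ins {n : ℕ} (w : SignedPerm n) (s : Bool) (F : ℕ → ℝ) :
    ∑ p : Fin (n + 1), F (desB (Ph ((p, s), w))) =
      (desB w : ℝ) * F (desB w) + ((n : ℝ) - desB w) * F (desB w + 1) +
        F (desB w + if s = true then 1 else 0) := by
  have hM : (∀ i ≤ n, val w i < letter n s) ∨ (∀ i ≤ n, letter n s < val w i) := by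
    unfold letter
    cases s with
    | false => left; intro i hi; exact (val_abs w i hi).1
    | true => right; intro i hi; exact (val_abs w i hi).2
  simp only [desB_Ph]
  rw [← Finset.sum_range (fun p : ℕ => F (dn (ins (val w) (p + 1) (letter n s)) (n + 1))),
    Finset.sum_range_succ, ins_last]
  have hlast : (if letter n s < val w n then 1 else 0) = if s = true then 1 else 0 := by
    have h := val_abs w n le_rfl
    unfold letter
    cases s with
    | false => simp only [Bool.false_eq_true, if_false]; rw [if_neg (by omega)]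
    | true => simp only [if_true]; rw [if_pos h.2]
  rw [hlast, ← desB_dn]
  congr 1
  have h1 : ∀ q ∈ Finset.range n, F (dn (ins (val w) (q + 1) (letter n s)) (n + 1)) =
      (if val w (q + 1) < val w q then (1 : ℝ) else 0) * F (desB w) +
      (1 - (if val w (q + 1) < val w q then (1 : ℝ) else 0)) * F (desB w + 1) := by
    intro q hq
    rw [Finset.mem_range] at hq
    have h2 := ins_mid (val w) (letter n s) q n (by omega) hM
    rw [← desB_dn] at h2
    by_cases hd : val w (q + 1) < val w q
    · rw [if_pos hd] at h2 ⊢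
      have h4 : dn (ins (val w) (q + 1) (letter n s)) (n + 1) = desB w := by omega
      rw [h4]
      ring
    · rw [if_neg hd] at h2 ⊢
      have h4 : dn (ins (val w) (q + 1) (letter n s)) (n + 1) = desB w + 1 := by omega
      rw [h4]
      ring
  rw [Finset.sum_congr rfl h1, Finset.sum_add_distrib, ← Finset.sum_mul, ← Finset.sum_mul,
    Finset.sum_sub_distrib]
  have h5 : ∑ q ∈ Finset.range n, (if val w (q + 1) < val w q then (1 : ℝ) else 0) = desB w := by
    rw [desB_dn]
    unfold dn
    push_cast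
    rfl
  rw [h5]
  simp

theorem desB_le {n : ℕ} (w : SignedPerm n) : desB w ≤ n := by
  unfold desB
  exact (Finset.card_filter_le _ _).trans (Finset.card_range n).le

/-- the operator dual to the insertion -/
def T (n : ℕ) (x : ℕ → ℝ) (k : ℕ) : ℝ :=
  (2 * (k : ℝ) + 1) * x k + (2 * ((n : ℝ) - k) + 1) * x (k + 1)

theorem sum_succ {n : ℕ} (x : ℕ → ℝ) :
    ∑ w : SignedPerm (n + 1), x (desB w) = ∑ w : SignedPerm n, T n x (desB w) := by
  rw [← Function.Bijective.sum_comp Ph_bij (fun w => x (desB w)), Fintype.sum_prod_type_right]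
  apply Finset.sum_congr rfl
  intro w _
  rw [Fintype.sum_prod_type_right, Fintype.sum_bool, sum_ins w true x, sum_ins w false x]
  unfold T
  simp only [if_true, Bool.false_eq_true, if_false, add_zero]
  ring

theorem sum_eq {n : ℕ} (x : ℕ → ℝ) :
    ∑ k ∈ Finset.range (n + 1), (B n k : ℝ) * x k = ∑ w : SignedPerm n, x (desB w) := by
  have h : ∀ w ∈ (Finset.univ : Finset (SignedPerm n)), desB w ∈ Finset.range (n + 1) := by
    intro w _
    rw [Finset.mem_range]
    have := desB_le w
    omega
  rw [← Finset.sum_fiberwise_of_maps_to h (fun w => x (desB w))]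
  apply Finset.sum_congr rfl
  intro k _
  have : ∀ w ∈ (Finset.univ : Finset (SignedPerm n)).filter (fun w => desB w = k),
      x (desB w) = x k := by
    intro w hw
    rw [(Finset.mem_filter.mp hw).2]
  rw [Finset.sum_congr rfl this, Finset.sum_const, nsmul_eq_mul]
  rfl

/-- **The type B Eulerian transformation preserves log-convexity.** -/
theorem result (x : ℕ → ℝ) (hx : ∀ k, 0 ≤ x k)
    (hlc : ∀ k, 1 ≤ k → x k ^ 2 ≤ x (k - 1) * x (k + 1)) (z : ℕ → ℝ)
    (hz : ∀ n, z n = ∑ k ∈ Finset.range (n + 1), (B n k : ℝ) * x k) :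
    (∀ n, 0 ≤ z n) ∧ ∀ n, 1 ≤ n → z n ^ 2 ≤ z (n - 1) * z (n + 1) := by
  refine ⟨fun n => ?_, ?_⟩
  · rw [hz]
    exact Finset.sum_nonneg fun k _ => mul_nonneg (Nat.cast_nonneg _) (hx k)
  intro m hm
  obtain ⟨n, rfl⟩ : ∃ n, m = n + 1 := ⟨m - 1, by omega⟩
  have e0 : z n = ∑ w : SignedPerm n, x (desB w) := by rw [hz, sum_eq]
  have e1 : z (n + 1) = ∑ w : SignedPerm n, T n x (desB w) := by rw [hz, sum_eq, sum_succ]
  have e2 : z (n + 1 + 1) = ∑ w : SignedPerm n, T n (T (n + 1) x) (desB w) := by
    rw [hz, sum_eq, sum_succ, sum_succ]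
  rw [show n + 1 - 1 = n from rfl, e0, e1, e2]
  have key : ∀ k ≤ n, 0 ≤ T n (T (n + 1) x) k ∧ T n x k ^ 2 ≤ x k * T n (T (n + 1) x) k := by
    intro k hk
    have h0 := hx k
    have h1 := hx (k + 1)
    have h2 := hx (k + 2)
    have h3 : x (k + 1) ^ 2 ≤ x k * x (k + 2) := hlc (k + 1) (by omega)
    have hb : (0 : ℝ) ≤ 2 * ((n : ℝ) - k) + 1 := by
      have : (k : ℝ) ≤ n := by exact_mod_cast hk
      linarith
    have ha : (0 : ℝ) ≤ 2 * (k : ℝ) + 1 := by positivity
    set a : ℝ := 2 * (k : ℝ) + 1 with hadef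
    set b : ℝ := 2 * ((n : ℝ) - k) + 1 with hbdef
    have e3 : T n (T (n + 1) x) k = a ^ 2 * x k + (2 * a * b + 2 * a + 2 * b) * x (k + 1) +
        b ^ 2 * x (k + 2) := by
      unfold T
      push_cast
      rw [hadef, hbdef]
      ring
    have e4 : T n x k = a * x k + b * x (k + 1) := rfl
    rw [e3, e4]
    constructor
    · positivity
    · nlinarith [mul_nonneg (mul_nonneg ha h0) h1, mul_nonneg (mul_nonneg hb h0) h1,
        mul_le_mul_of_nonneg_left h3 (sq_nonneg b)]
  apply Finset.sum_sq_le_sum_mul_sum_of_sq_le_mul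
  · intro w _
    exact hx _
  · intro w _
    exact (key _ (desB_le w)).1
  · intro w _
    exact (key _ (desB_le w)).2

end Pool.Agent.Results.MP_209e83_co.TypeB
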